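import Pool.Agent.helper86.BK.Spec

/-!
# Project bk: SHR
-/

set_option autoImplicit false

namespace Pool.Agent.BK

theorem SHR_large (ε : ℝ) (hε : 0 < ε) :
    ∃ M₀ : ℕ, ∀ M : ℕ, M₀ ≤ M → 6 * (Real.log M + 1) ≤ (M : ℝ) ^ (ε / 4) := by
  have hr : 0 < ε / 4 := by positivity
  have h1 := (isLittleO_log_rpow_atTop hr).bound (show (0 : ℝ) < 1 / 12 by norm_num)
  have h2 := (tendsto_rpow_atTop hr).eventually_ge_atTop 12
  have h3 := (h1.and (h2.and (Filter.eventually_ge_atTop 1)))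
  have h4 := tendsto_natCast_atTop_atTop (R := ℝ) |>.eventually h3
  obtain ⟨M₀, hM⟩ := Filter.eventually_atTop.1 h4
  refine ⟨M₀, fun M hM' => ?_⟩
  obtain ⟨a1, a2, a3⟩ := hM M hM'
  rw [Real.norm_of_nonneg (Real.log_nonneg a3), Real.norm_of_nonneg (by positivity)] at a1
  linarith

theorem SHR (hCOV : COV_stmt) : SHR_stmt := by
  intro c hFW ε hε
  obtain ⟨δ, hδ0, hδ, M₀, hM₀⟩ := hFW (ε / 4) (by positivity)
  obtain ⟨M₁, hM₁⟩ := SHR_large ε hε
  refine ⟨δ, hδ0, by linarith, max 1 (max M₀ M₁), ?_⟩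
  intro M hM B Q hQ hQc hAP
  have hM1 : 1 ≤ M := le_trans (le_max_left _ _) hM
  have hMM₀ : M₀ ≤ M := le_trans (le_trans (le_max_left _ _) (le_max_right _ _)) hM
  have hMM₁ : M₁ ≤ M := le_trans (le_trans (le_max_right _ _) (le_max_right _ _)) hM
  have hMr : (1 : ℝ) ≤ M := by exact_mod_cast hM1
  have hM0 : (0 : ℝ) < M := by linarith
  have hQpos : (0 : ℝ) < Q.card := lt_of_lt_of_le (Real.rpow_pos_of_pos hM0 _) hQc
  have hQne : Q.Nonempty := by
    rw [← Finset.card_pos]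
    exact_mod_cast hQpos
  obtain ⟨F, hF, hcov⟩ := hCOV M Q hM1 hQne hQ
  classical
  set K : ℕ := ⌈(M : ℝ) ^ δ⌉₊ with hK
  set B' : Finset ℤ := (B ×ˢ (Finset.range K ×ˢ F)).image (fun z => z.1 + z.2.1 * z.2.2) with hB'
  have hAP' : ∀ m : ℕ, 1 ≤ m → m ≤ M → HasAP B' m ((M : ℝ) ^ δ) := by
    intro m hm1 hmM
    obtain ⟨q, hq, t, ht, hmt⟩ := hcov m hm1 hmM
    obtain ⟨b, hb⟩ := hAP q hq
    refine ⟨b, fun k hk => ?_⟩
    rw [hB', Finset.mem_image]
    refine ⟨(b + k * q, k, t), ?_, ?_⟩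
    · rw [Finset.mem_product, Finset.mem_product]
      refine ⟨hb k hk, ?_, ht⟩
      rw [Finset.mem_range]
      exact Nat.lt_ceil.2 hk
    · show b + k * q + k * t = b + k * m
      rw [hmt]
      ring
  have h1 := hM₀ M hMM₀ B' hAP'
  have hδM : (1 : ℝ) ≤ (M : ℝ) ^ δ := Real.one_le_rpow hMr hδ0.le
  have hlog : 0 ≤ Real.log M := Real.log_nonneg hMr
  have hKle : (K : ℝ) ≤ 2 * (M : ℝ) ^ δ := by
    have h2 := (Nat.ceil_lt_add_one (show (0 : ℝ) ≤ (M : ℝ) ^ δ by positivity)).le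
    rw [← hK] at h2
    linarith
  have hFle : (F.card : ℝ) ≤ 3 * (M : ℝ) ^ δ * (Real.log M + 1) := by
    have h2 : (2 : ℝ) * M / Q.card ≤ 2 * (M : ℝ) ^ δ := by
      rw [div_le_iff₀ hQpos]
      have h3 : (M : ℝ) ^ δ * (M : ℝ) ^ (1 - δ) = M := by
        rw [← Real.rpow_add hM0]
        simp
      have h4 : (M : ℝ) ^ δ * (M : ℝ) ^ (1 - δ) ≤ (M : ℝ) ^ δ * Q.card :=
        mul_le_mul_of_nonneg_left hQc (by positivity)
      rw [h3] at h4
      linarith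
    have h3 : 2 * (M : ℝ) / Q.card * (Real.log M + 1) ≤ 2 * (M : ℝ) ^ δ * (Real.log M + 1) :=
      mul_le_mul_of_nonneg_right h2 (by linarith)
    have h4 : (1 : ℝ) ≤ (M : ℝ) ^ δ * (Real.log M + 1) := by
      calc (1 : ℝ) = 1 * 1 := by ring
        _ ≤ (M : ℝ) ^ δ * (Real.log M + 1) :=
          mul_le_mul hδM (by linarith) zero_le_one (by positivity)
    linarith
  have hB'le : (B'.card : ℝ) ≤ B.card * (K * F.card) := by
    have h2 : B'.card ≤ B.card * (K * F.card) := by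
      refine Finset.card_image_le.trans ?_
      rw [Finset.card_product, Finset.card_product, Finset.card_range]
    exact_mod_cast h2
  have h2 : (M : ℝ) ^ (1 - c - ε / 4) ≤ B.card * (M : ℝ) ^ (3 * ε / 4) := by
    refine (h1.trans hB'le).trans (mul_le_mul_of_nonneg_left ?_ (Nat.cast_nonneg _))
    calc (K : ℝ) * F.card ≤ (2 * (M : ℝ) ^ δ) * (3 * (M : ℝ) ^ δ * (Real.log M + 1)) :=
          mul_le_mul hKle hFle (Nat.cast_nonneg _) (by positivity)
      _ = ((M : ℝ) ^ δ * (M : ℝ) ^ δ) * (6 * (Real.log M + 1)) := by ring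
      _ ≤ ((M : ℝ) ^ (ε / 4) * (M : ℝ) ^ (ε / 4)) * (M : ℝ) ^ (ε / 4) := by
          have h3 : (M : ℝ) ^ δ ≤ (M : ℝ) ^ (ε / 4) :=
            Real.rpow_le_rpow_of_exponent_le hMr hδ.le
          exact mul_le_mul (mul_le_mul h3 h3 (by positivity) (by positivity)) (hM₁ M hMM₁)
            (by positivity) (by positivity)
      _ = (M : ℝ) ^ (3 * ε / 4) := by
          rw [← Real.rpow_add hM0, ← Real.rpow_add hM0]
          ring_nf
  have h3 : (M : ℝ) ^ (1 - c - ε) * (M : ℝ) ^ (3 * ε / 4) = (M : ℝ) ^ (1 - c - ε / 4) := by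
    rw [← Real.rpow_add hM0]
    ring_nf
  have h4 : 0 < (M : ℝ) ^ (3 * ε / 4) := Real.rpow_pos_of_pos hM0 _
  rw [← h3] at h2
  exact le_of_mul_le_mul_right h2 h4

end Pool.Agent.BK
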